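import Pool.Agent.H30.HQ.Targets
import Pool.Agent.H48.FR.CP

/-!
Module CPB of board hqn_modules (MP_6a7a6f_gt): compactness, the quantitative form of the
conditions.
-/

namespace Pool.Agent.H1.HQN

open Pool.Agent.H48.FR Pool.Agent.H30.HQ Pool.Agent.H48.FRCP

/-- one quantitative condition -/
theorem gen {E Q : Type} [TopologicalSpace E] [CompactSpace E] [TopologicalSpace Q]
    [CompactSpace Q] {C : Set (E × ℝ)} (hC : IsClosed C) (hC1 : ∀ z ∈ C, z.2 ∈ Set.Icc (0 : ℝ) 1)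
    {F : E → ℝ → Q → ℝ} (cF : Continuous fun Z : E × ℝ × Q => F Z.1 Z.2.1 Z.2.2)
    {h : E → Q → Q → ℝ} (ch : Continuous fun Z : E × Q × Q => h Z.1 Z.2.1 Z.2.2) {r D : ℝ}
    (hD0 : 0 ≤ D) (hr : 0 ≤ r) (hD : ∀ X q₀ q, h X q₀ q ≤ D)
    (hlt : ∀ X s, (X, s) ∈ C → ∀ q₀ q, IsMx (F X s) q₀ → IsMx (F X s) q → h X q₀ q < r) :
    ∃ K : ℝ, 0 ≤ K ∧ ∀ X s, (X, s) ∈ C → ∀ q₀ q, IsMx (F X s) q₀ →
      h X q₀ q ≤ r + K * (F X s q₀ - F X s q) := by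
  have cs : Continuous fun z : E × Set.Icc (0 : ℝ) 1 × Q × Q => z.2.1.1 := by fun_prop
  have c1 : Continuous fun z : E × Set.Icc (0 : ℝ) 1 × Q × Q => F z.1 z.2.1.1 z.2.2.1 :=
    cF.comp (g := fun Z : E × ℝ × Q => F Z.1 Z.2.1 Z.2.2)
      (continuous_fst.prodMk (cs.prodMk (by fun_prop)))
  have c2 : Continuous fun z : E × Set.Icc (0 : ℝ) 1 × Q × Q => F z.1 z.2.1.1 z.2.2.2 :=
    cF.comp (g := fun Z : E × ℝ × Q => F Z.1 Z.2.1 Z.2.2)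
      (continuous_fst.prodMk (cs.prodMk (by fun_prop)))
  have c3 : Continuous fun z : E × Set.Icc (0 : ℝ) 1 × Q × Q => h z.1 z.2.2.1 z.2.2.2 :=
    ch.comp (g := fun Z : E × Q × Q => h Z.1 Z.2.1 Z.2.2)
      (continuous_fst.prodMk (by fun_prop))
  obtain ⟨K, hK0, hK⟩ : ∃ K : ℝ, 0 ≤ K ∧ ∀ z ∈ {z : E × Set.Icc (0 : ℝ) 1 × Q × Q |
      (z.1, z.2.1.1) ∈ C ∧ IsMx (F z.1 z.2.1.1) z.2.2.1 ∧ r ≤ h z.1 z.2.2.1 z.2.2.2},
      D ≤ K * (F z.1 z.2.1.1 z.2.2.1 - F z.1 z.2.1.1 z.2.2.2) := by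
    refine exists_K ?_ (c1.sub c2) ?_ hD0
    · rw [Set.ofPred_and, Set.ofPred_and]
      refine IsClosed.inter ?_ (IsClosed.inter ?_ ?_)
      · exact hC.preimage (continuous_fst.prodMk cs)
      · have : {z : E × Set.Icc (0 : ℝ) 1 × Q × Q | IsMx (F z.1 z.2.1.1) z.2.2.1} =
            ⋂ a : Q, {z : E × Set.Icc (0 : ℝ) 1 × Q × Q | F z.1 z.2.1.1 a ≤
              F z.1 z.2.1.1 z.2.2.1} := by
          ext z
          rw [Set.mem_iInter]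
          rfl
        rw [show {z : E × Set.Icc (0 : ℝ) 1 × Q × Q | IsMx (F z.1 z.2.1.1) z.2.2.1} = _
          from this]
        refine isClosed_iInter fun a => isClosed_le ?_ c1
        exact cF.comp (g := fun Z : E × ℝ × Q => F Z.1 Z.2.1 Z.2.2)
          (continuous_fst.prodMk (cs.prodMk continuous_const))
      · exact isClosed_le continuous_const c3
    · rintro ⟨X, s, q₀, q⟩ ⟨h0, h1, h2⟩
      have h3 : F X s.1 q ≤ F X s.1 q₀ := h1 q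
      rcases h3.lt_or_eq with h4 | h4
      · exact sub_pos.2 h4
      · exfalso
        have h5 : IsMx (F X s.1) q := fun a => by
          rw [h4]; exact h1 a
        exact absurd (hlt X s.1 h0 q₀ q h1 h5) (not_lt.2 h2)
  refine ⟨K, hK0, fun X s hXs q₀ q hq₀ => ?_⟩
  have hnn : 0 ≤ F X s q₀ - F X s q := sub_nonneg.2 (hq₀ q)
  by_cases hh : r ≤ h X q₀ q
  · have h1 : D ≤ K * (F X s q₀ - F X s q) := hK (X, ⟨s, hC1 _ hXs⟩, q₀, q) ⟨hXs, hq₀, hh⟩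
    linarith [hD X q₀ q]
  · linarith [lt_of_not_ge hh, mul_nonneg hK0 hnn]

theorem pf_CPB : T_CPB := by
  intro M B S Q _ _ _ _ _ _ _ _ Δ
  have hD : ∀ x y : M, dist x y ≤ Metric.diam (Set.univ : Set M) := fun x y =>
    Metric.dist_le_diam_of_mem (Bornology.IsBounded.all _) (Set.mem_univ _) (Set.mem_univ _)
  have hD0 : 0 ≤ Metric.diam (Set.univ : Set M) := Metric.diam_nonneg
  have hr := Δ.r_pos
  have cg : Continuous fun X : S => Δ.g (Δ.pb X) := Δ.g.continuous.comp Δ.hpb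
  have cρ : Continuous fun X : S => dist Δ.p (Δ.g (Δ.pb X)) := continuous_const.dist cg
  let E : Set S := {X | Δ.d₁ / 4 ≤ dist Δ.p (Δ.g (Δ.pb X))}
  have hEc : IsClosed E := isClosed_le continuous_const cρ
  have hE : CompactSpace E := isCompact_iff_compactSpace.1 hEc.isCompact
  have hne : ∀ X : E, Δ.g (Δ.pb X.1) ≠ Δ.p := by
    intro X h
    have h1 : Δ.d₁ / 4 ≤ dist Δ.p (Δ.g (Δ.pb X.1)) := X.2
    rw [h, dist_self] at h1
    linarith [Δ.d₁_pos]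
  have cρE : Continuous fun X : E => dist Δ.p (Δ.g (Δ.pb X.1)) :=
    cρ.comp continuous_subtype_val
  have cgE : Continuous fun X : E => Δ.g (Δ.pb X.1) := cg.comp continuous_subtype_val
  have cy : Continuous fun Z : E × Q => Δ.y Z.1.1 Z.2 := by
    refine Δ.hy.comp_continuous (f := fun Z : E × Q => (Z.1.1, Z.2)) (by fun_prop) ?_
    intro Z
    exact hne Z.1
  have cF : Continuous fun Z : E × ℝ × Q => Δ.F Z.1.1 Z.2.1 Z.2.2 := by
    refine Δ.hF.comp_continuous (f := fun Z : E × ℝ × Q => (Z.1.1, Z.2.1, Z.2.2))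
      (by fun_prop) ?_
    intro Z
    exact hne Z.1
  have cy1 : Continuous fun Z : E × Q × Q => Δ.y Z.1.1 Z.2.1 :=
    cy.comp (g := fun Z : E × Q => Δ.y Z.1.1 Z.2) (continuous_fst.prodMk (by fun_prop))
  have cy2 : Continuous fun Z : E × Q × Q => Δ.y Z.1.1 Z.2.2 :=
    cy.comp (g := fun Z : E × Q => Δ.y Z.1.1 Z.2) (continuous_fst.prodMk (by fun_prop))
  have hcl : IsClosed {z : E × ℝ | z.2 ∈ Set.Icc Δ.s₀ 1} :=
    isClosed_Icc.preimage continuous_snd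
  obtain ⟨K₁, hK₁0, hK₁⟩ := gen (E := E) (Q := Q) (C := {z : E × ℝ | z.2 = Δ.s₀})
    (isClosed_eq continuous_snd continuous_const)
    (fun z hz => by
      have : z.2 = Δ.s₀ := hz
      rw [this]; exact Δ.s₀_mem) (F := fun X s q => Δ.F X.1 s q) cF
    (h := fun X _ q => dist (Δ.g (Δ.pb X.1)) (Δ.y X.1 q))
    ((cgE.comp continuous_fst).dist cy2) hD0 hr.le (fun X _ q => hD _ _)
    (fun X s hs q₀ q _ h5 => by
      have : s = Δ.s₀ := hs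
      subst this
      exact Δ.near X.1 (hne X) q h5)
  obtain ⟨K₂, hK₂0, hK₂⟩ := gen (E := E) (Q := Q) hcl
    (fun z hz => ⟨Δ.s₀_mem.1.trans hz.1, hz.2⟩) (F := fun X s q => Δ.F X.1 s q) cF
    (h := fun X q₀ q => dist (Δ.y X.1 q) (Δ.y X.1 q₀))
    (cy2.dist cy1) hD0 hr.le (fun X _ q => hD _ _)
    (fun X s hs q₀ q h1 h5 => Δ.pair X.1 (hne X) s hs q q₀ h5 h1)
  obtain ⟨K₃, hK₃0, hK₃⟩ := gen (E := E) (Q := Q)
    (C := {z : E × ℝ | z.2 ∈ Set.Icc Δ.s₀ 1} ∩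
      ({z : E × ℝ | z.2 = 1} ∪ {z : E × ℝ | dist Δ.p (Δ.g (Δ.pb z.1.1)) ≤ Δ.d₁}))
    (hcl.inter ((isClosed_eq continuous_snd continuous_const).union
      (isClosed_le (cρE.comp continuous_fst) continuous_const)))
    (fun z hz => ⟨Δ.s₀_mem.1.trans hz.1.1, hz.1.2⟩) (F := fun X s q => Δ.F X.1 s q) cF
    (h := fun X _ q => dist Δ.p (Δ.y X.1 q))
    (continuous_const.dist cy2) hD0 hr.le (fun X _ q => hD _ _)
    (fun X s hs q₀ q _ h5 => by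
      obtain ⟨h1, h2 | h2⟩ := hs
      · have : s = 1 := h2
        subst this
        exact Δ.end_p X.1 (hne X) q h5
      · exact Δ.near_p X.1 (hne X) h2 s h1 q h5)
  refine ⟨max K₁ (max K₂ K₃), le_max_of_le_left hK₁0, fun X hX => ⟨fun q₀ q hq₀ => ?_,
    fun s hs q₀ q hq₀ => ?_, fun s hs h q₀ q hq₀ => ?_⟩⟩
  · have hnn : 0 ≤ Δ.F X Δ.s₀ q₀ - Δ.F X Δ.s₀ q := sub_nonneg.2 (hq₀ q)
    have h1 := hK₁ ⟨X, hX⟩ Δ.s₀ rfl q₀ q hq₀
    have h2 := mul_le_mul_of_nonneg_right (le_max_left K₁ (max K₂ K₃)) hnn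
    have h3 : dist (Δ.g (Δ.pb X)) (Δ.y X q) ≤ Δ.r + K₁ * (Δ.F X Δ.s₀ q₀ - Δ.F X Δ.s₀ q) := h1
    linarith
  · have hnn : 0 ≤ Δ.F X s q₀ - Δ.F X s q := sub_nonneg.2 (hq₀ q)
    have h1 := hK₂ ⟨X, hX⟩ s hs q₀ q hq₀
    have h2 := mul_le_mul_of_nonneg_right
      ((le_max_left K₂ K₃).trans (le_max_right K₁ (max K₂ K₃))) hnn
    have h3 : dist (Δ.y X q) (Δ.y X q₀) ≤ Δ.r + K₂ * (Δ.F X s q₀ - Δ.F X s q) := h1
    linarith
  · have hnn : 0 ≤ Δ.F X s q₀ - Δ.F X s q := sub_nonneg.2 (hq₀ q)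
    have h1 := hK₃ ⟨X, hX⟩ s ⟨hs, h⟩ q₀ q hq₀
    have h2 := mul_le_mul_of_nonneg_right
      ((le_max_right K₂ K₃).trans (le_max_right K₁ (max K₂ K₃))) hnn
    have h3 : dist Δ.p (Δ.y X q) ≤ Δ.r + K₃ * (Δ.F X s q₀ - Δ.F X s q) := h1
    linarith

end Pool.Agent.H1.HQN
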