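import Pool.Agent.H30.HQ.Targets

/-!
Module HOB of board hqn_modules (MP_6a7a6f_gt): from a homotopy on a compact space over `B` to a
null-homotopy of the Kuratowski map composed with `B → M`.
-/

namespace Pool.Agent.H1.HQN

open Pool.Agent.H48.FR Pool.Agent.H30.HQ
open Filter Topology
open scoped ENNReal

theorem pf_HOB : T_HOB := by
  intro M B S _ _ _ _ _ _ _ π g p a ε hε Θ hπ hsurj ha h0 h1 hinv hb hc
  have ha0 : 0 ≤ a := by
    obtain ⟨X⟩ := (inferInstance : Nonempty S)
    obtain ⟨m, hm⟩ := hb X 0 ⟨le_rfl, zero_le_one⟩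
    exact (abs_nonneg _).trans (hm p)
  have hmem : ∀ (X : S) (t : unitInterval), Memℓp (fun z : M => Θ X (t : ℝ) z) ∞ := by
    intro X t
    obtain ⟨m, hm⟩ := hb X t t.2
    refine memℓp_infty ⟨a + Metric.diam (Set.univ : Set M), ?_⟩
    rintro _ ⟨z, rfl⟩
    change ‖Θ X (t : ℝ) z‖ ≤ _
    rw [Real.norm_eq_abs]
    have h2 : dist m z ≤ Metric.diam (Set.univ : Set M) :=
      Metric.dist_le_diam_of_mem (Bornology.IsBounded.all _) (Set.mem_univ _) (Set.mem_univ _)
    have h3 := hm z
    have h4 : (0 : ℝ) ≤ dist m z := dist_nonneg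
    rw [abs_le] at h3 ⊢
    constructor <;> linarith [h3.1, h3.2]
  let Ψ : S × unitInterval → lp (fun _ : M => ℝ) ∞ :=
    fun W => ⟨fun z => Θ W.1 (W.2 : ℝ) z, hmem W.1 W.2⟩
  have hΨn : ∀ W, Ψ W ∈ nbhd M ε := by
    intro W
    obtain ⟨m, hm⟩ := hb W.1 W.2 W.2.2
    rw [nbhd, Metric.mem_thickening_iff]
    refine ⟨kur M m, ⟨m, rfl⟩, ?_⟩
    refine lt_of_le_of_lt ?_ ha
    rw [dist_eq_norm]
    refine lp.norm_le_of_forall_le ha0 fun z => ?_
    rw [lp.coeFn_sub, Pi.sub_apply, kur_apply, Real.norm_eq_abs]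
    exact hm z
  have hΨc : Continuous Ψ := by
    rw [continuous_iff_continuousAt]
    rintro ⟨X, t⟩
    rw [ContinuousAt, Metric.tendsto_nhds]
    intro δ hδ
    have h2 := hc X t t.2 (δ / 2) (by linarith)
    have h3 : Tendsto (fun W : S × unitInterval => ((W.1, (W.2 : ℝ)) : S × ℝ)) (𝓝 (X, t))
        (𝓝 (X, (t : ℝ))) := by
      have h4 : Continuous (fun W : S × unitInterval => ((W.1, (W.2 : ℝ)) : S × ℝ)) := by
        fun_prop
      exact h4.tendsto (X, t)
    filter_upwards [h3.eventually h2] with W hW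
    refine lt_of_le_of_lt ?_ (by linarith : δ / 2 < δ)
    rw [dist_eq_norm]
    refine lp.norm_le_of_forall_le (by linarith) fun z => ?_
    rw [lp.coeFn_sub, Pi.sub_apply, Real.norm_eq_abs]
    exact hW W.2.2 z
  let H : S × unitInterval → nbhd M ε := fun W => ⟨Ψ W, hΨn W⟩
  have hHc : Continuous H := hΨc.subtype_mk _
  let H' : B × unitInterval → nbhd M ε := fun W => H (Function.surjInv hsurj W.1, W.2)
  have hq : IsQuotientMap (Prod.map π (id : unitInterval → unitInterval)) := by
    have hcont : Continuous (Prod.map π (id : unitInterval → unitInterval)) :=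
      hπ.prodMap continuous_id
    exact (Continuous.isClosedMap hcont).isQuotientMap hcont
      (hsurj.prodMap Function.surjective_id)
  have hcomp : H' ∘ (Prod.map π (id : unitInterval → unitInterval)) = H := by
    funext W
    apply Subtype.ext
    apply Subtype.ext
    funext z
    change Θ (Function.surjInv hsurj (π W.1)) (W.2 : ℝ) z = Θ W.1 (W.2 : ℝ) z
    rw [hinv (Function.surjInv hsurj (π W.1)) W.1 (Function.surjInv_eq hsurj _)]
  have hH'c : Continuous H' := by
    rw [hq.continuous_iff, hcomp]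
    exact hHc
  refine ⟨⟨kur M p, kur_mem_nbhd hε p⟩, ⟨⟨⟨fun W => H' (W.2, W.1), ?_⟩, ?_, ?_⟩⟩⟩
  · exact hH'c.comp continuous_swap
  · intro m
    apply Subtype.ext
    apply Subtype.ext
    funext z
    change Θ (Function.surjInv hsurj m) ((0 : unitInterval) : ℝ) z = dist (g m) z
    rw [Set.Icc.coe_zero, h0, Function.surjInv_eq hsurj]
  · intro m
    apply Subtype.ext
    apply Subtype.ext
    funext z
    change Θ (Function.surjInv hsurj m) ((1 : unitInterval) : ℝ) z = dist p z
    rw [Set.Icc.coe_one, h1]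

end Pool.Agent.H1.HQN
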