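import Pool.Agent.H30.HQ.Targets

/-!
Module QVT of board hqn_modules (MP_6a7a6f_gt): the first coordinate and the others.
-/

namespace Pool.Agent.H1.HQN

open Pool.Agent.H48.FR Pool.Agent.H30.HQ Pool.Agent.H59

theorem sum_two (f : ℕ → ℝ) (n : ℕ) :
    ∑ i ∈ Finset.range n, (f (2 * i + 2) + f (2 * i + 3)) =
      ∑ j ∈ Finset.range (2 * n), f (j + 2) := by
  induction n with
  | zero => simp
  | succ n ih =>
    rw [Finset.sum_range_succ, ih, Nat.mul_succ, Finset.sum_range_succ, Finset.sum_range_succ]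
    ring

theorem sum_three (f : ℕ → ℝ) (k : ℕ) (h : f (2 * k + 3) = 0) :
    ∑ i ∈ Finset.range (k + 1), (f (2 * i + 2) + f (2 * i + 3)) =
      ∑ j ∈ Finset.range (2 * k + 1), f (j + 2) := by
  rw [sum_two, Nat.mul_succ, Finset.sum_range_succ]
  have h1 : f (2 * k + 1 + 2) = 0 := h
  rw [h1, add_zero]

theorem sum_four (f : ℕ → ℝ) (k : ℕ) :
    ∑ i ∈ Finset.range (2 * (k + 1) + 1), f i =
      f 0 + f 1 + ∑ j ∈ Finset.range (2 * k + 1), f (j + 2) := by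
  rw [show 2 * (k + 1) + 1 = 2 * k + 1 + 1 + 1 from rfl, Finset.sum_range_succ',
    Finset.sum_range_succ']
  ring

theorem xk_smul {m : ℕ} (a : ℂ) (x : Fin m → ℂ) (j : ℕ) : xk (a • x) j = a * xk x j := by
  unfold xk
  split_ifs
  · rfl
  · rw [mul_zero]

theorem xk_cont {m : ℕ} (j : ℕ) : Continuous fun x : Fin m → ℂ => xk x j := by
  unfold xk
  split_ifs with h
  · exact continuous_apply _
  · exact continuous_const

theorem nrm_t2 {k : ℕ} (x : Fin (2 * (k + 1) + 1) → ℂ) :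
    nrm (t2 (m := 2 * k + 1) x) ^ 2 = ∑ j ∈ Finset.range (2 * k + 1), ‖xk x (j + 2)‖ ^ 2 := by
  rw [nrm_sq, ← Fin.sum_univ_eq_sum_range (fun j => ‖xk x (j + 2)‖ ^ 2)]
  rfl

theorem pf_QVT (hQTA : T_QTA) (_hQVA : T_QVA) : T_QVT := by
  intro k x
  refine ⟨rfl, ?_, ?_, ?_, ?_, xk_cont 0, xk_cont 1⟩
  · have h1 : nrm (tl (qv x : Fin (k + 1 + 1) → _)) ^ 2 = nrm (t2 (m := 2 * k + 1) x) ^ 2 := by
      rw [nrm_t2, nrm_sq]
      have h2 : ∀ i : Fin (k + 1), ‖tl (qv x : Fin (k + 1 + 1) → _) i‖ ^ 2 =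
          (fun i : ℕ => ‖xk x (2 * i + 2)‖ ^ 2 + ‖xk x (2 * i + 3)‖ ^ 2) (i : ℕ) := by
        intro i
        exact hQTA.1 _ _
      rw [Finset.sum_congr rfl fun i _ => h2 i, Fin.sum_univ_eq_sum_range
        (fun i : ℕ => ‖xk x (2 * i + 2)‖ ^ 2 + ‖xk x (2 * i + 3)‖ ^ 2) (k + 1),
        sum_three (fun n => ‖xk x n‖ ^ 2) k]
      change ‖xk x (2 * k + 3)‖ ^ 2 = 0
      have h3 : xk x (2 * k + 3) = 0 := by
        unfold xk
        rw [dif_neg (by omega)]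
      rw [h3]
      simp
    exact (sq_eq_sq₀ (nrm_nonneg _) (nrm_nonneg _)).1 h1
  · rw [nrm_t2, nrm_sq]
    have h2 : ∀ j : Fin (2 * (k + 1) + 1), ‖x j‖ ^ 2 =
        (fun n : ℕ => ‖xk x n‖ ^ 2) (j : ℕ) := by
      intro j
      change _ = ‖xk x (j : ℕ)‖ ^ 2
      unfold xk
      rw [dif_pos j.2]
    rw [Finset.sum_congr rfl fun j _ => h2 j,
      Fin.sum_univ_eq_sum_range (fun n : ℕ => ‖xk x n‖ ^ 2) (2 * (k + 1) + 1),
      sum_four (fun n => ‖xk x n‖ ^ 2) k]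
  · intro a
    refine ⟨?_, xk_smul a x 0, xk_smul a x 1⟩
    funext i
    exact xk_smul a x _
  · exact continuous_pi fun i => xk_cont _

end Pool.Agent.H1.HQN
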